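import Pool.Agent.P.MP_b193f0_co.Rate3

/-!
Poset Ramsey numbers `R(P, Q_n)`: an explicit rate, uniform in the poset `P`.
-/

set_option autoImplicit false

namespace Pool.Agent.Results.MP_b193f0_co.ExplicitRate

open Pool.Agent.P.MP_b193f0_co

/-- Every blue/red colouring of `Q_N` (blue is `true`) has a blue induced copy of `P` or a red
induced copy of `Q_n`. -/
def Arrows (P : Type) [PartialOrder P] (n N : ℕ) : Prop :=
  ∀ c : Finset (Fin N) → Bool,
    (∃ f : P ↪o Finset (Fin N), ∀ x : P, c (f x) = true) ∨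
    (∃ g : Finset (Fin n) ↪o Finset (Fin N), ∀ x : Finset (Fin n), c (g x) = false)

/-- The 2-dimension of `P`: the least `m` such that `Q_m` has an induced copy of `P`. -/
noncomputable def dim2 (P : Type) [PartialOrder P] : ℕ :=
  sInf {m : ℕ | Nonempty (P ↪o Finset (Fin m))}

theorem result (P : Type) [PartialOrder P] [Fintype P] [Nonempty P] (n : ℕ)
    (hn : 60000 * ((dim2 P : ℝ) + 2) ^ 2 ≤ Real.log (Real.log n)) :
    ∃ R : ℕ, IsLeast {N : ℕ | Arrows P n N} R ∧ n ≤ R ∧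
      (R : ℝ) ≤ n + 480 * ((dim2 P : ℝ) + 2) * n * Real.log (Real.log (Real.log n)) /
        Real.log (Real.log n) := by
  obtain ⟨φ⟩ : Nonempty (P ↪o Finset (Fin (dim2 P))) :=
    Nat.sInf_mem (s := {m : ℕ | Nonempty (P ↪o Finset (Fin m))}) ⟨_, exists_cube_emb P⟩
  obtain ⟨D, hD, h1, h2⟩ := invert (dim2 P) n hn
  have h3 : n + n / D ∈ {N : ℕ | Arrows P n N} := by
    intro c
    rcases ramsey_cube (dim2 P) D _ _ n hD rfl rfl h1 c with ⟨f, hf⟩ | h
    · exact Or.inl ⟨φ.trans f, fun x => hf _⟩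
    · exact Or.inr h
  have h4 : sInf {N : ℕ | Arrows P n N} ∈ {N : ℕ | Arrows P n N} := Nat.sInf_mem ⟨_, h3⟩
  refine ⟨sInf {N : ℕ | Arrows P n N}, ⟨h4, fun N hN => Nat.sInf_le hN⟩, ?_, ?_⟩
  · rcases h4 fun _ => false with ⟨f, hf⟩ | ⟨g, -⟩
    · exact absurd (hf (Classical.arbitrary P)) (by simp)
    · have h5 := Fintype.card_le_of_injective g g.injective
      simp only [Fintype.card_finset, Fintype.card_fin] at h5
      exact (Nat.pow_le_pow_iff_right (by norm_num)).1 h5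
  · have h5 : ((sInf {N : ℕ | Arrows P n N} : ℕ) : ℝ) ≤ ((n + n / D : ℕ) : ℝ) := by
      exact_mod_cast Nat.sInf_le h3
    rw [Nat.cast_add] at h5
    linarith

end Pool.Agent.Results.MP_b193f0_co.ExplicitRate
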